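import Pool.Agent.helper25.FD.DenseT

/-!
# MP_bf63dc_nt, uniformly in `c`: almost all `b`
-/

namespace Pool.Agent.helper25.FD

open Finset Real Pool.Agent.helper25.FB Pool.Agent.helper39.MT Pool.Agent.helper85.FC Pool.Agent.helper85.QC

open Classical in
/-- **Almost all `b`.** -/
theorem almost_allT {ε : ℝ} (hε : 0 < ε) (z : ℕ) : ∃ K : ℕ, 2 ≤ K ∧ ∃ δ : ℝ, 0 < δ ∧
    ∀ c : ℤ, c ≠ 0 →
    (∀ N : ℕ, K * c.natAbs ^ 2 ≤ N →
    (#{b ∈ PC c.natAbs N | ¬ ∃ w t : ℕ, 0 < w ∧ w ≤ K ∧ 0 < t ∧ t ≤ K ∧ GT z t ∧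
      (∀ p : ℕ, p.Prime → p ∣ t → (p : ℤ) ∣ c) ∧
      δ * ((Nat.totient c.natAbs : ℝ) / c.natAbs * N) ≤
        {a : ℕ | a ≤ K * N ∧ TrueCase a (w * b) (c * t)}.ncard} : ℝ) ≤
      ε * ((Nat.totient c.natAbs : ℝ) / c.natAbs * N)) ∧
    ∃ N₀ : ℕ, ∀ N : ℕ, N₀ ≤ N →
    (#{b ∈ PC c.natAbs N | ¬ ∃ w t : ℕ, 0 < w ∧ w ≤ K ∧ 0 < t ∧ t ≤ K ∧ GT z t ∧
      (∀ p : ℕ, p.Prime → p ∣ t → (p : ℤ) ∣ c) ∧ ∀ X₀ : ℕ, ∃ X : ℕ, X₀ ≤ X ∧
      δ * ((Nat.totient c.natAbs : ℝ) / c.natAbs * X) ≤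
        {a : ℕ | a ≤ X ∧ TrueCase a (w * b) (c * t)}.ncard} : ℝ) ≤
      ε * ((Nat.totient c.natAbs : ℝ) / c.natAbs * N) := by
  obtain ⟨K', δ, hδ, H'⟩ := dense_linksT hε z
  obtain ⟨K, hKK', hK2⟩ : ∃ K, K' ≤ K ∧ 2 ≤ K := ⟨K' + 2, by omega, by omega⟩
  have H : ∀ c : ℤ, c ≠ 0 →
      ∀ N : ℕ → ℕ, Monotone N → K * c.natAbs ^ 2 ≤ N 0 → ∀ S : ℕ → Finset ℕ, (∀ j, S j ⊆ PC c.natAbs (N j)) →
      (∀ j, ε * ((Nat.totient c.natAbs : ℝ) / c.natAbs * N j) ≤ #(S j)) →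
      ∃ i j, i < j ∧ ∃ b ∈ S i, ∃ u m w t : ℕ, 0 < u ∧ u ≤ K ∧ 0 < m ∧ m ≤ K ∧ 0 < w ∧ w ≤ K ∧
        0 < t ∧ t ≤ K ∧ GT z t ∧ (∀ p : ℕ, p.Prime → p ∣ t → (p : ℤ) ∣ c) ∧
        δ * ((Nat.totient c.natAbs : ℝ) / c.natAbs * N j) ≤
          Set.ncard {x : ℕ | x ∈ S j ∧ m ∣ x ∧ TrueCase (u * (x / m)) (w * b) (c * t)} := by
    intro c hc N hN hN0 S hS hSb
    obtain ⟨i, j, hij, b, hb, u, m, w, t, hu, huK, hm, hmK, hw, hwK, ht, htK, htG, htc, hcnt⟩ :=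
      H' c hc N hN ((Nat.mul_le_mul_right _ hKK').trans hN0) S hS hSb
    exact ⟨i, j, hij, b, hb, u, m, w, t, hu, huK.trans hKK', hm, hmK.trans hKK', hw, hwK.trans hKK',
      ht, htK.trans hKK', htG, htc, hcnt⟩
  set δ' : ℝ := δ / (K + 1) with hδ'
  have hδ'0 : 0 < δ' := by rw [hδ']; positivity
  have hδ'K : δ' * K < δ := by
    rw [hδ', div_mul_eq_mul_div, div_lt_iff₀ (by positivity)]
    nlinarith
  have hδ'δ : δ' ≤ δ := by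
    rw [hδ']
    exact div_le_self hδ.le (by
      have : (0 : ℝ) ≤ K := Nat.cast_nonneg _
      linarith)
  refine ⟨K, hK2, δ', hδ'0, fun c hc => ?_⟩
  have hN₀ := H c hc
  obtain ⟨N₀, hN₀d⟩ : ∃ N₀, N₀ = K * c.natAbs ^ 2 := ⟨_, rfl⟩
  have hC : 0 < c.natAbs := Int.natAbs_pos.2 hc
  set C := c.natAbs with hCdef
  set E : ℝ := (Nat.totient C : ℝ) / C with hE
  have hE0 : 0 < E := by
    have h1 : (0 : ℝ) < Nat.totient C := by exact_mod_cast Nat.totient_pos.2 hC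
    have h2 : (0 : ℝ) < C := by exact_mod_cast hC
    rw [hE]; positivity
  -- passing from `x` to `a`
  have hpass : ∀ (N : ℕ) (S : Finset ℕ) (b u m w t : ℕ), 0 < u → u ≤ K → 0 < m → S ⊆ PC C N →
      Set.ncard {x : ℕ | x ∈ S ∧ m ∣ x ∧ TrueCase (u * (x / m)) (w * b) (c * t)} ≤
        {a : ℕ | a ≤ K * N ∧ TrueCase a (w * b) (c * t)}.ncard := by
    intro N S b u m w t hu huK hm hS
    refine Set.ncard_le_ncard_of_injOn (fun x => u * (x / m)) ?_ ?_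
      ((Set.finite_Iic (K * N)).subset fun a ha => ha.1)
    · rintro x ⟨hx, hmx, htrue⟩
      refine ⟨?_, htrue⟩
      have h1 := (mem_PC.1 (hS hx)).1.2
      exact Nat.mul_le_mul huK ((Nat.div_le_self _ _).trans h1)
    · rintro x ⟨hx, hmx, -⟩ x' ⟨hx', hmx', -⟩ h
      simp only at h
      have h1 := Nat.eq_of_mul_eq_mul_left hu h
      rw [← Nat.mul_div_cancel' hmx, ← Nat.mul_div_cancel' hmx', h1]
  -- the second bad set
  set Bad : ℕ → Prop := fun b => ¬ ∃ w t : ℕ, 0 < w ∧ w ≤ K ∧ 0 < t ∧ t ≤ K ∧ GT z t ∧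
      (∀ p : ℕ, p.Prime → p ∣ t → (p : ℤ) ∣ c) ∧ ∀ X₀ : ℕ, ∃ X : ℕ, X₀ ≤ X ∧
      δ' * (E * X) ≤ {a : ℕ | a ≤ X ∧ TrueCase a (w * b) (c * t)}.ncard with hBad
  have hbad2 : ∃ N₁ : ℕ, ∀ N : ℕ, N₁ ≤ N → (#{b ∈ PC C N | Bad b} : ℝ) ≤ ε * (E * N) := by
    by_contra hcon
    push Not at hcon
    -- thresholds
    have hthr : ∀ b : ℕ, ∃ T : ℕ, Bad b → ∀ w t : ℕ, 0 < w → w ≤ K → 0 < t → t ≤ K → GT z t →
        (∀ p : ℕ, p.Prime → p ∣ t → (p : ℤ) ∣ c) → ∀ X : ℕ, T ≤ X →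
        ({a : ℕ | a ≤ X ∧ TrueCase a (w * b) (c * t)}.ncard : ℝ) < δ' * (E * X) := by
      intro b
      by_cases hb : Bad b
      · have h1 : ∀ q : ℕ × ℕ, ∃ T : ℕ, 0 < q.1 → q.1 ≤ K → 0 < q.2 → q.2 ≤ K → GT z q.2 →
            (∀ p : ℕ, p.Prime → p ∣ q.2 → (p : ℤ) ∣ c) → ∀ X : ℕ, T ≤ X →
            ({a : ℕ | a ≤ X ∧ TrueCase a (q.1 * b) (c * q.2)}.ncard : ℝ) < δ' * (E * X) := by
          rintro ⟨w, t⟩
          by_cases hq : 0 < w ∧ w ≤ K ∧ 0 < t ∧ t ≤ K ∧ GT z t ∧ (∀ p : ℕ, p.Prime → p ∣ t → (p : ℤ) ∣ c)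
          · rw [hBad] at hb
            push Not at hb
            obtain ⟨T, hT⟩ := hb w t hq.1 hq.2.1 hq.2.2.1 hq.2.2.2.1 hq.2.2.2.2.1 hq.2.2.2.2.2
            exact ⟨T, fun _ _ _ _ _ _ => hT⟩
          · exact ⟨0, fun a1 a2 a3 a4 a5 a6 => absurd ⟨a1, a2, a3, a4, a5, a6⟩ hq⟩
        choose T hT using h1
        refine ⟨∑ q ∈ range (K + 1) ×ˢ range (K + 1), T q, fun _ w t hw hwK ht htK htG htc X hX => ?_⟩
        refine hT (w, t) hw hwK ht htK htG htc X (le_trans ?_ hX)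
        exact single_le_sum (f := T) (fun _ _ => Nat.zero_le _)
          (mem_product.2 ⟨mem_range.2 (by simp only; omega), mem_range.2 (by simp only; omega)⟩)
      · exact ⟨0, fun h => absurd h hb⟩
    choose T hT using hthr
    -- the next scale
    have hnext : ∀ n : ℕ, ∃ n' : ℕ, n ≤ n' ∧ N₀ ≤ n' ∧ (∀ b ≤ n, T b ≤ n') ∧
        ε * (E * n') < #{b ∈ PC C n' | Bad b} := by
      intro n
      obtain ⟨n', hn', h1⟩ := hcon (n + N₀ + ∑ b ∈ range (n + 1), T b)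
      refine ⟨n', by omega, by omega, fun b hb => ?_, h1⟩
      have h2 : T b ≤ ∑ b ∈ range (n + 1), T b :=
        single_le_sum (f := T) (fun _ _ => Nat.zero_le _) (mem_range.2 (by omega))
      omega
    choose nx hnx1 hnx2 hnx3 hnx4 using hnext
    set N : ℕ → ℕ := fun j => nx^[j + 1] 0 with hN
    have hNs : ∀ j, N (j + 1) = nx (N j) := fun j => Function.iterate_succ_apply' nx (j + 1) 0
    have hmono : Monotone N := monotone_nat_of_le_succ fun j => by rw [hNs]; exact hnx1 _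
    have hN0 : N₀ ≤ N 0 := by
      show N₀ ≤ nx 0
      exact hnx2 0
    have hNbig : ∀ j, ε * (E * N j) < #{b ∈ PC C (N j) | Bad b} := by
      intro j
      cases j with
      | zero => exact hnx4 0
      | succ j => rw [hNs]; exact hnx4 _
    obtain ⟨i, j, hij, b, hb, u, m, w, t, hu, huK, hm, hmK, hw, hwK, ht, htK, htG, htc, hcnt⟩ :=
      hN₀ N hmono (hN₀d ▸ hN0) (fun j => {b ∈ PC C (N j) | Bad b}) (fun j => filter_subset _ _)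
        (fun j => (hNbig j).le)
    replace hb : b ∈ ({b ∈ PC C (N i) | Bad b} : Finset ℕ) := hb
    rw [mem_filter] at hb
    have h1 := hpass (N j) ({b ∈ PC C (N j) | Bad b}) b u m w t hu huK hm (filter_subset _ _)
    have h2 : (Set.ncard {x : ℕ | x ∈ ({b ∈ PC C (N j) | Bad b} : Finset ℕ) ∧ m ∣ x ∧
        TrueCase (u * (x / m)) (w * b) (c * t)} : ℝ) ≤
        {a : ℕ | a ≤ K * N j ∧ TrueCase a (w * b) (c * t)}.ncard := by exact_mod_cast h1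
    have hK1 : 1 ≤ K := by omega
    have h3 := hT b hb.2 w t hw hwK ht htK htG htc (K * N j) (by
      have h4 : T b ≤ N (i + 1) := by
        rw [hNs]
        exact hnx3 (N i) b (mem_PC.1 hb.1).1.2
      have h5 : N (i + 1) ≤ N j := hmono hij
      exact (h4.trans h5).trans (Nat.le_mul_of_pos_left _ hK1))
    push_cast at h3
    have h4 : δ * (E * N j) < δ' * (E * (K * N j)) := lt_of_le_of_lt (hcnt.trans h2) h3
    have h5 : δ' * (E * (K * N j)) = (δ' * K) * (E * N j) := by ring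
    rw [h5] at h4
    have h6 : (0 : ℝ) ≤ E * N j := by positivity
    nlinarith
  obtain ⟨N₁, hN₁⟩ := hbad2
  refine ⟨fun N hN => ?_, N₁, hN₁⟩
  by_contra hcon
  rw [not_le] at hcon
  obtain ⟨i, j, hij, b, hb, u, m, w, t, hu, huK, hm, hmK, hw, hwK, ht, htK, htG, htc, hcnt⟩ :=
    hN₀ (fun _ => N) monotone_const hN (fun _ =>
      {b ∈ PC C N | ¬ ∃ w t : ℕ, 0 < w ∧ w ≤ K ∧ 0 < t ∧ t ≤ K ∧ GT z t ∧
      (∀ p : ℕ, p.Prime → p ∣ t → (p : ℤ) ∣ c) ∧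
      δ' * (E * N) ≤ {a : ℕ | a ≤ K * N ∧ TrueCase a (w * b) (c * t)}.ncard})
      (fun j => filter_subset _ _) (fun j => hcon.le)
  rw [mem_filter] at hb
  apply hb.2
  refine ⟨w, t, hw, hwK, ht, htK, htG, htc, ?_⟩
  have h1 := hpass N ({b ∈ PC C N | ¬ ∃ w t : ℕ, 0 < w ∧ w ≤ K ∧ 0 < t ∧ t ≤ K ∧ GT z t ∧
      (∀ p : ℕ, p.Prime → p ∣ t → (p : ℤ) ∣ c) ∧
      δ' * (E * N) ≤ {a : ℕ | a ≤ K * N ∧ TrueCase a (w * b) (c * t)}.ncard}) b u m w t hu huK hm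
      (filter_subset _ _)
  have h2 : δ' * (E * N) ≤ δ * (E * N) := by
    have h6 : (0 : ℝ) ≤ E * N := by positivity
    gcongr
  refine h2.trans (hcnt.trans ?_)
  exact_mod_cast h1

end Pool.Agent.helper25.FD
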