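import Pool.Agent.helper25.FD.Main
import Pool.Agent.helper25.FB.CoreT

/-!
# MP_bf63dc_nt, uniformly in `c`: the core with four clusters separated modulo small primes of `c`
-/

namespace Pool.Agent.helper25.FD

open Finset Pool.Agent.helper39.MT Pool.Agent.helper25.FB Pool.Agent.helper85.FC Pool.Agent.helper85.QC
  Pool.Agent.helper11.MK

/-- `t = t₁ t₂` with `t₁ ≤ 3` and all prime factors of `t₂` greater than `z`. -/
def GT (z t : ℕ) : Prop := ∃ t₁ t₂ : ℕ, t = t₁ * t₂ ∧ t₁ ≤ 3 ∧ ∀ p : ℕ, p.Prime → p ∣ t₂ → z < p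

/-- `y` and `x` occur, up to factors `u, v ≤ K` with `m ∣ v`, and `c` up to a factor `t ≤ K` composed
of primes dividing `c`, whose part composed of primes `≤ z` is at most `3`, in the true case
`(u y, v x, c t)`. -/
def LinkT (z : ℕ) (c : ℤ) (m K x y : ℕ) : Prop :=
  ∃ u v t : ℕ, 0 < u ∧ u ≤ K ∧ 0 < v ∧ v ≤ K ∧ m ∣ v ∧ 0 < t ∧ t ≤ K ∧ GT z t ∧
    (∀ p : ℕ, p.Prime → p ∣ t → (p : ℤ) ∣ c) ∧ TrueCase (u * y) (v * x) (c * t)

/-- two values give a link. -/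
theorem core_pairT {z : ℕ} {c : ℤ} (hc : c ≠ 0) {m K h₁ h₂ A₁ A₂ : ℕ} (hlt : h₁ < h₂) (h₁0 : 0 < h₁)
    (hd₁ : cf c.natAbs (h₂ - h₁) ∣ h₁) (hm : m ∣ h₁ / cf c.natAbs (h₂ - h₁))
    (hmc : IsCoprime (m : ℤ) c) (ht4 : GT z (cs c.natAbs (h₂ - h₁))) (hK₂ : h₂ ≤ K)
    (hA₁ : 0 < A₁) (hA₂ : 0 < A₂) (hA₁h : Nat.Coprime A₁ h₂) (hA₂h : Nat.Coprime A₂ h₁)
    (hAA : Nat.Coprime A₁ A₂)
    (hsol : InfSol (cf c.natAbs h₂ * A₂) (cf c.natAbs h₁ * A₁) (c * h₂ - c * h₁)) :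
    LinkT z c m K A₁ A₂ := by
  classical
  have hC : 0 < c.natAbs := Int.natAbs_pos.2 hc
  set C := c.natAbs with hCdef
  obtain ⟨D, hD⟩ : ∃ D, D = h₂ - h₁ := ⟨_, rfl⟩
  rw [← hD] at hd₁ hm ht4
  have hD0 : 0 < D := by omega
  obtain ⟨g, hg⟩ : ∃ g, g = cf C D := ⟨_, rfl⟩
  obtain ⟨t, ht⟩ : ∃ t, t = cs C D := ⟨_, rfl⟩
  rw [← hg] at hd₁ hm
  rw [← ht] at ht4
  have hg0 : 0 < g := by rw [hg]; exact cf_pos hD0
  have ht0 : 0 < t := by rw [ht]; exact cs_pos hD0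
  have hgt : D = g * t := by rw [hg, ht, cf_mul_cs]
  have hgC : Nat.Coprime g C := by rw [hg]; exact cf_coprime hC hD0
  have htp : ∀ p : ℕ, p.Prime → p ∣ t → p ∣ C := fun p hp h => cs_prime hp (by rw [← ht]; exact h)
  obtain ⟨x, rfl⟩ := hd₁
  rw [Nat.mul_div_cancel_left _ hg0] at hm
  have hy : h₂ = g * (x + t) := by rw [mul_add, ← hgt]; omega
  subst hy
  have hx0 : 0 < x := Nat.pos_of_mul_pos_left h₁0
  have hx1 : 0 < x + t := by omega
  have hcfg : cf C g = g := cf_self hC hg0 hgC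
  have hsol' : InfSol (cf C (x + t) * A₂) (cf C x * A₁) (c * t) := by
    apply InfSol.cancel' hg0
    have e1 : g * (cf C (x + t) * A₂) = cf C (g * (x + t)) * A₂ := by
      rw [cf_mul hC hg0 hx1, hcfg]; ring
    have e2 : g * (cf C x * A₁) = cf C (g * x) * A₁ := by
      rw [cf_mul hC hg0 hx0, hcfg]; ring
    have e3 : (g : ℤ) * (c * t) = c * ((g * (x + t) : ℕ) : ℤ) - c * ((g * x : ℕ) : ℤ) := by
      push_cast
      ring
    rw [e1, e2, e3]
    exact hsol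
  have hcop : Nat.Coprime (cf C (x + t) * A₂) (cf C x * A₁) := by
    refine Nat.Coprime.mul_left (Nat.Coprime.mul_right ?_ ?_) (Nat.Coprime.mul_right ?_ ?_)
    · by_contra hcon
      obtain ⟨p, hp, h1, h2⟩ := Nat.Prime.not_coprime_iff_dvd.1 hcon
      have h3 : p ∣ x + t := h1.trans (cf_dvd C _)
      have h4 : p ∣ x := h2.trans (cf_dvd C x)
      have h5 : p ∣ t := (Nat.dvd_add_right h4).1 h3
      have h6 := Nat.dvd_gcd h1 (htp p hp h5)
      rw [cf_coprime hC hx1] at h6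
      exact hp.one_lt.ne' (Nat.dvd_one.1 h6)
    · exact (hA₁h.symm.coprime_dvd_left ((cf_dvd C (x + t)).trans (Dvd.intro_left g rfl)))
    · exact (hA₂h.coprime_dvd_right ((cf_dvd C x).trans (Dvd.intro_left g rfl)))
    · exact hAA.symm
  have hct : c * (t : ℤ) ≠ 0 := mul_ne_zero hc (by exact_mod_cast ht0.ne')
  have ha0 := Nat.mul_pos (cf_pos (C := C) hx1) hA₂
  have hb0 := Nat.mul_pos (cf_pos (C := C) hx0) hA₁
  have hcond := InfSol.conditions ha0 hb0 hct hcop hsol'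
  have hxK : x + t ≤ K := (Nat.le_mul_of_pos_left _ hg0).trans hK₂
  refine ⟨cf C (x + t), cf C x, t, cf_pos hx1, ?_, cf_pos hx0, ?_, ?_, ht0, by omega, ht4, ?_, ?_⟩
  · exact (Nat.le_of_dvd hx1 (cf_dvd C _)).trans hxK
  · exact (Nat.le_of_dvd hx0 (cf_dvd C _)).trans (by omega)
  · -- the divisor m
    have h1 : Nat.Coprime m (cs C x) := by
      by_contra hcon
      obtain ⟨p, hp, h1, h2⟩ := Nat.Prime.not_coprime_iff_dvd.1 hcon
      have h3 := cs_prime hp h2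
      have hpZ : Prime (p : ℤ) := Nat.prime_iff_prime_int.1 hp
      exact hpZ.not_isUnit (hmc.isUnit_of_dvd' (by exact_mod_cast h1) (Int.natCast_dvd.2 h3))
    refine h1.dvd_of_dvd_mul_right ?_
    rw [cf_mul_cs]
    exact hm
  · intro p hp hd
    exact Int.natCast_dvd.2 (htp p hp hd)
  · refine ⟨ha0, hb0, hct, hcop, hcond.1, hcond.2.1, ?_, hsol'⟩
    rintro ⟨h1, h2, h3⟩
    exact hcond.2.2 ⟨by exact_mod_cast h1, by exact_mod_cast h2, h3⟩

/-- the part of the difference of two shifts in different clusters which is composed of primes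
of `c` -/
theorem GT_cs {z : ℕ} {c : ℤ} (hc : c ≠ 0) {D : ℕ} (hD : 0 < D) (h : cs (MM (EP z c)) D ≤ 3) :
    GT z (cs c.natAbs D) := by
  have hC : 0 < c.natAbs := Int.natAbs_pos.2 hc
  have hE : ∀ p ∈ EP z c, p.Prime := fun p hp => (mem_EP.1 hp).1.2
  have hM0 : 0 < MM (EP z c) := MM_pos hE
  obtain ⟨t, ht⟩ : ∃ t, t = cs c.natAbs D := ⟨_, rfl⟩
  have ht0 : 0 < t := by rw [ht]; exact cs_pos hD
  have ht1 : cs (MM (EP z c)) t = cs (MM (EP z c)) D := by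
    refine Nat.eq_of_factorization_eq (cs_pos ht0).ne' (cs_pos hD).ne' fun p => ?_
    by_cases hp : p.Prime
    · rw [cs_factorization hM0 ht0 hp, cs_factorization hM0 hD hp]
      split_ifs with h1
      · rw [ht, cs_factorization hC hD hp, if_pos (mem_EP.1 ((MM_prime hE hp).1 h1)).2]
      · rfl
    · rw [Nat.factorization_eq_zero_of_not_prime _ hp, Nat.factorization_eq_zero_of_not_prime _ hp]
  rw [← ht]
  refine ⟨cs (MM (EP z c)) t, cf (MM (EP z c)) t, by rw [mul_comm, cf_mul_cs], by rw [ht1]; exact h,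
    fun p hp hd => ?_⟩
  by_contra hcon
  have h1 : p ∣ c.natAbs := cs_prime hp (by rw [← ht]; exact hd.trans (cf_dvd _ t))
  have h2 : p ∈ EP z c := mem_EP.2 ⟨⟨by omega, hp⟩, h1⟩
  have h3 := Nat.dvd_gcd hd ((MM_prime hE hp).2 h2)
  rw [cf_coprime hM0 ht0] at h3
  exact hp.one_lt.ne' (Nat.dvd_one.1 h3)

/-- **The core, uniformly in `c`.** -/
theorem link_coreT : ∃ k : ℕ, 2 ≤ k ∧ ∃ ρ : Fin k → ℕ, ∀ z : ℕ, ∀ c : ℤ, c ≠ 0 →
    ∀ (m K : ℕ) (h : Fin k → ℕ),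
    StrictMono h → (∀ i, 0 < h i) → (∀ i, h i ≡ ρ i [MOD MM (EP z c)]) →
    (∀ i j, i < j → cf (MM (EP z c)) (h j - h i) ∣ h i ∧
      m ∣ h i / cf (MM (EP z c)) (h j - h i)) →
    (∀ i, h i ≤ K) → IsCoprime (m : ℤ) c → ∀ A : Fin k → ℕ, (∀ i, 0 < A i) →
    (∀ i, IsCoprime (A i : ℤ) c) → (∀ i j, i ≠ j → Nat.Coprime (A i) (A j)) →
    (∀ i l, Nat.Coprime (A i) (h l)) → ∃ i j, i < j ∧ LinkT z c m K (A i) (A j) := by
  obtain ⟨kc, hkc, H⟩ := Pool.Agent.helper85.QD.two_primes_cluster cm4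
  refine ⟨4 * kc, by omega, fun i => ((cl4 i : Fin 4) : ℕ),
    fun z c hc m K h hmono hpos hres hdvd hK hmc A hA hAc hAA hAh => ?_⟩
  have hC : 0 < c.natAbs := Int.natAbs_pos.2 hc
  have hE : ∀ p ∈ EP z c, p.Prime := fun p hp => (mem_EP.1 hp).1.2
  have hMC : ∀ p : ℕ, p.Prime → p ∣ MM (EP z c) → p ∣ c.natAbs :=
    fun p hp h => (mem_EP.1 ((MM_prime hE hp).1 h)).2
  have hdvd' : ∀ i j, i < j → cf c.natAbs (h j - h i) ∣ h i ∧
      m ∣ h i / cf c.natAbs (h j - h i) := by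
    intro i j hij
    obtain ⟨h1, h2⟩ := hdvd i j hij
    have h3 := cf_dvd_cf (C := c.natAbs) (M := MM (EP z c)) (D := h j - h i) hC
      (by have := hmono hij; omega) hMC
    refine ⟨h3.trans h1, h2.trans ?_⟩
    exact Nat.div_dvd_div_left h1 h3
  have hcs : ∀ i j, i < j → cl4 i ≠ cl4 j → GT z (cs c.natAbs (h j - h i)) := by
    intro i j hlt hcl
    refine GT_cs hc (by have := hmono hlt; omega) ?_
    refine cs_diff_le hE (hmono hlt) ?_ ?_ ?_ (hres i) (hres j)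
    · have := (cl4 i).isLt
      simp only
      omega
    · have := (cl4 j).isLt
      simp only
      omega
    · exact fun h => hcl (Fin.ext h)
  obtain ⟨i, j, hij, hs⟩ := H (fun i => cf c.natAbs (h i) * A i) (fun i => c * (h i : ℤ))
    (fun i => Nat.mul_pos (cf_pos (hpos i)) (hA i)) (by
      intro i j hij
      have h1 : (h i : ℤ) = h j := mul_left_cancel₀ hc hij
      exact hmono.injective (by exact_mod_cast h1))
    (fun p hp => core_localT h hpos hmono c hc (fun i j hij => (hdvd' i j hij).1) A hA hAh hAc hAA p hp)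
  have hij' : i ≠ j := fun h => hij (by rw [h])
  rcases lt_or_gt_of_ne hij' with hlt | hlt
  · refine ⟨i, j, hlt, ?_⟩
    have h1 := hs.swap'
    rw [neg_sub] at h1
    exact core_pairT hc (hmono hlt) (hpos i) (hdvd' i j hlt).1 (hdvd' i j hlt).2 hmc
      (hcs i j hlt hij) (hK j) (hA i) (hA j) (hAh i j) (hAh j i) (hAA i j hij') h1
  · refine ⟨j, i, hlt, ?_⟩
    exact core_pairT hc (hmono hlt) (hpos j) (hdvd' j i hlt).1 (hdvd' j i hlt).2 hmc
      (hcs j i hlt (fun h => hij h.symm)) (hK i) (hA j) (hA i)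
      (hAh j i) (hAh i j) (hAA j i hij'.symm) hs

end Pool.Agent.helper25.FD
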