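import Pool.Agent.helper74.FD.SpecF

/-!
# Project FD, row FLP: Parseval for a windowed function
-/

set_option autoImplicit false

open MeasureTheory Filter Set
open scoped ContDiff Topology ComplexConjugate

namespace Pool.Agent.FD

theorem FLP_int {f : ℝ → ℂ} (h : ∀ y, 1 / 4 ≤ |y| → f y = 0) : ∫ y in (-(1 / 2) : ℝ)..(1 / 2), f y = ∫ y, f y := by
  refine intervalIntegral.integral_eq_integral_of_support_subset ?_
  intro y hy
  by_contra hcon
  apply hy
  apply h
  by_contra h2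
  push Not at h2
  rw [abs_lt] at h2
  exact hcon ⟨by linarith [h2.1], by linarith [h2.2]⟩

theorem FLP_intr {f : ℝ → ℝ} (h : ∀ y, 1 / 4 ≤ |y| → f y = 0) : ∫ y in (-(1 / 2) : ℝ)..(1 / 2), f y = ∫ y, f y := by
  refine intervalIntegral.integral_eq_integral_of_support_subset ?_
  intro y hy
  by_contra hcon
  apply hy
  apply h
  by_contra h2
  push Not at h2
  rw [abs_lt] at h2
  exact hcon ⟨by linarith [h2.1], by linarith [h2.2]⟩

theorem FLP_proof : FLP_stmt := by
  intro F ψ x hF hψ h0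
  have hab : (-(1 / 2) : ℝ) < 1 / 2 := by norm_num
  obtain ⟨g, hg⟩ : ∃ g : ℝ → ℂ, ∀ y, g y = F (x - y) * (ψ y : ℂ) := ⟨_, fun y => rfl⟩
  have hgf : g = fun y => F (x - y) * (ψ y : ℂ) := funext hg
  have hg0 : ∀ y, 1 / 4 ≤ |y| → g y = 0 := by
    intro y hy
    rw [hg, h0 y hy, Complex.ofReal_zero, mul_zero]
  have hgc : Continuous g := by
    rw [hgf]
    exact (hF.comp (continuous_const.sub continuous_id)).mul (Complex.continuous_ofReal.comp hψ)
  have hcs : HasCompactSupport g := by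
    refine HasCompactSupport.intro (K := Icc (-(1 / 4)) (1 / 4)) isCompact_Icc ?_
    intro y hy
    apply hg0
    by_contra h2
    push Not at h2
    rw [abs_lt] at h2
    exact hy ⟨h2.1.le, h2.2.le⟩
  have hL2 : MemLp g 2 (volume.restrict (Ioc (-(1 / 2) : ℝ) (1 / 2))) :=
    (hgc.memLp_of_hasCompactSupport hcs).restrict _
  have key := hasSum_sq_fourierCoeffOn hab hL2
  have key2 := (Equiv.neg ℤ).hasSum_iff.2 key
  have e1 : (fun i => ‖fourierCoeffOn hab g i‖ ^ 2) ∘ (Equiv.neg ℤ) = fun l : ℤ => ‖Fl F ψ l x‖ ^ 2 := by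
    funext l
    show ‖fourierCoeffOn hab g (-l)‖ ^ 2 = ‖Fl F ψ l x‖ ^ 2
    have e2 : fourierCoeffOn hab g (-l) = Fl F ψ l x := by
      rw [fourierCoeffOn_eq_integral, Fl]
      have e3 : (fun y : ℝ => F (x - y) * (ψ y : ℂ) * Complex.exp (((2 * Real.pi * l * y : ℝ) : ℂ) * Complex.I)) =
          fun y : ℝ => fourier (-(-l)) (y : AddCircle ((1 / 2 : ℝ) - -(1 / 2))) • g y := by
        funext y
        rw [fourier_coe_apply, hg, smul_eq_mul, mul_comm (F (x - y) * (ψ y : ℂ))]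
        congr 2
        push_cast
        ring
      rw [e3, ← FLP_int]
      · norm_num
      · intro y hy
        rw [hg0 y hy, smul_zero]
    rw [e2]
  have e4 : ((1 / 2 : ℝ) - -(1 / 2))⁻¹ • ∫ y in (-(1 / 2) : ℝ)..(1 / 2), ‖g y‖ ^ 2 = ∫ y : ℝ, ‖F (x - y)‖ ^ 2 * ψ y ^ 2 := by
    have e5 : (fun y : ℝ => ‖F (x - y)‖ ^ 2 * ψ y ^ 2) = fun y => ‖g y‖ ^ 2 := by
      funext y
      rw [hg, norm_mul, mul_pow, Complex.norm_real, Real.norm_eq_abs, sq_abs]
    rw [e5, ← FLP_intr]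
    · norm_num
    · intro y hy
      rw [hg0 y hy, norm_zero]
      norm_num
  rw [e1, e4] at key2
  exact key2

end Pool.Agent.FD
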